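import Mathlib

/-!
# MP_6fd06d_co: `PGL(2,q)` is not strict EKR robust for any odd `q`

The derangements of square determinant do not contain any set `D_{i → j} ∪ D_{j → i}`; after
deleting them the elements of square determinant form an independent set of size `|G| / 2`.
-/

set_option autoImplicit false

open scoped LinearAlgebra.Projectivization Classical

namespace Pool.Agent.Results.MP_6fd06d_co.OddQ

/-- The derangements of a permutation group. -/
def Der {Ω : Type} (G : Subgroup (Equiv.Perm Ω)) : Set (Equiv.Perm Ω) :=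
  {g | g ∈ G ∧ ∀ x, g x ≠ x}

/-- `D_{i → j}`: the derangements of `G` that map `i` to `j`. -/
def DTo {Ω : Type} (G : Subgroup (Equiv.Perm Ω)) (i j : Ω) : Set (Equiv.Perm Ω) :=
  {g | g ∈ Der G ∧ g i = j}

/-- The Cayley graph `Cay(G, S)`: distinct `g`, `h` are adjacent if `h g⁻¹` (or `g h⁻¹`, which is
the same for inverse-closed `S`) lies in `S`. -/
def cay {Ω : Type} (G : Subgroup (Equiv.Perm Ω)) (S : Set (Equiv.Perm Ω)) : SimpleGraph G :=
  SimpleGraph.fromRel (fun g h => ((h * g⁻¹ : G) : Equiv.Perm Ω) ∈ S)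

/-- Strict EKR robustness: `α(Cay(G, Der(G) \ D)) = |G| / |Ω|` for every inverse-closed set `D` of
derangements that contains no set `D_{i → j} ∪ D_{j → i}`, `i ≠ j`. -/
def StrictEKRRobust {Ω : Type} (G : Subgroup (Equiv.Perm Ω)) : Prop :=
  ∀ D : Set (Equiv.Perm Ω), D ⊆ Der G → (∀ g ∈ D, g⁻¹ ∈ D) →
    (∀ i j : Ω, i ≠ j → ¬ (DTo G i j ∪ DTo G j i ⊆ D)) →
    (cay G (Der G \ D)).indepNum * Nat.card Ω = Nat.card G

/-- `PGL(2, F)` as a permutation group on the projective line: the permutations induced by the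
invertible linear maps of `F²`. -/
def PGL2 (F : Type) [Field F] : Subgroup (Equiv.Perm (ℙ F (Fin 2 → F))) :=
  (MulAction.toPermHom ((Fin 2 → F) ≃ₗ[F] (Fin 2 → F)) (ℙ F (Fin 2 → F))).range

section

variable {F : Type} [Field F]

/-- nonsquares `d` and `t² - 4d` -/
theorem exists_param [Fintype F] (hF : ringChar F ≠ 2) :
    ∃ d t : F, ¬ IsSquare d ∧ ¬ IsSquare (t ^ 2 - 4 * d) := by
  obtain ⟨d, hd⟩ := FiniteField.exists_nonsquare hF
  by_contra hcon
  push Not at hcon
  have hall : ∀ t : F, IsSquare (t ^ 2 - 4 * d) := fun t => hcon d t hd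
  let Q : Finset F := Finset.univ.filter (fun a => IsSquare a)
  have h2 : (2 : F) ≠ 0 := Ring.two_ne_zero hF
  have hd0 : d ≠ 0 := by
    rintro rfl
    exact hd ⟨0, by simp⟩
  have himg : Q.image (fun x => x - 4 * d) = Q := by
    apply Finset.eq_of_subset_of_card_le
    · intro x hx
      rw [Finset.mem_image] at hx
      obtain ⟨y, hy, rfl⟩ := hx
      obtain ⟨t, rfl⟩ := (Finset.mem_filter.1 hy).2
      rw [Finset.mem_filter]
      refine ⟨Finset.mem_univ _, ?_⟩
      have := hall t
      rwa [pow_two] at this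
    · rw [Finset.card_image_of_injective]
      intro a b hab
      simpa using hab
  have hsum : ∑ x ∈ Q, x = ∑ x ∈ Q, (x - 4 * d) := by
    conv_lhs => rw [← himg]
    rw [Finset.sum_image]
    intro a _ b _ hab
    simpa using hab
  rw [Finset.sum_sub_distrib, Finset.sum_const, nsmul_eq_mul] at hsum
  have hQ0 : (Q.card : F) = 0 := by
    have h4 : (4 : F) * d ≠ 0 := by
      refine mul_ne_zero ?_ hd0
      rw [show (4 : F) = 2 * 2 by norm_num]
      exact mul_ne_zero h2 h2
    have h5 : (Q.card : F) * (4 * d) = 0 := by linear_combination hsum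
    rcases mul_eq_zero.1 h5 with h | h
    · exact h
    · exact absurd h h4
  have hcount : (2 * (Q.card : ℤ)) = Fintype.card F + 1 := by
    have h6 : ∀ a : F, (if IsSquare a then (2 : ℤ) else 0) =
        1 + quadraticChar F a + (if a = 0 then 1 else 0) := by
      intro a
      by_cases ha : a = 0
      · subst ha
        simp
      · rw [if_neg ha]
        by_cases hs : IsSquare a
        · rw [if_pos hs, (quadraticChar_one_iff_isSquare ha).2 hs]; norm_num
        · rw [if_neg hs, quadraticChar_neg_one_iff_not_isSquare.2 hs]; norm_num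
    have h7 : (2 * (Q.card : ℤ)) = ∑ a : F, (if IsSquare a then (2 : ℤ) else 0) := by
      rw [← Finset.sum_filter, Finset.sum_const, nsmul_eq_mul]
      ring
    rw [h7, Finset.sum_congr rfl (fun a _ => h6 a), Finset.sum_add_distrib,
      Finset.sum_add_distrib, quadraticChar_sum_zero hF]
    simp
  have h8 : (2 : F) * (Q.card : F) = (Fintype.card F : F) + 1 := by
    exact_mod_cast congrArg (Int.cast : ℤ → F) hcount
  rw [hQ0, FiniteField.cast_card_eq_zero] at h8
  simp at h8

/-- the linear automorphisms with square determinant -/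
noncomputable def K (F : Type) [Field F] : Subgroup ((Fin 2 → F) ≃ₗ[F] (Fin 2 → F)) :=
  (Subgroup.square Fˣ).comap LinearEquiv.det

theorem mem_K (A : (Fin 2 → F) ≃ₗ[F] (Fin 2 → F)) : A ∈ K F ↔ IsSquare (LinearEquiv.det A) :=
  Iff.rfl

noncomputable def H (F : Type) [Field F] : Subgroup (Equiv.Perm (ℙ F (Fin 2 → F))) :=
  (K F).map (MulAction.toPermHom ((Fin 2 → F) ≃ₗ[F] (Fin 2 → F)) (ℙ F (Fin 2 → F)))

theorem H_le : H F ≤ PGL2 F := by
  rintro g ⟨A, _, rfl⟩
  exact ⟨A, rfl⟩

theorem index_le [Fintype F] (hF : ringChar F ≠ 2) {g h : Equiv.Perm (ℙ F (Fin 2 → F))}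
    (hg : g ∈ PGL2 F) (hg' : g ∉ H F) (hh : h ∈ PGL2 F) (hh' : h ∉ H F) : g * h⁻¹ ∈ H F := by
  obtain ⟨A, rfl⟩ := hg
  obtain ⟨B, rfl⟩ := hh
  have hA : ¬ IsSquare (LinearEquiv.det A) := fun hc => hg' ⟨A, hc, rfl⟩
  have hB : ¬ IsSquare (LinearEquiv.det B) := fun hc => hh' ⟨B, hc, rfl⟩
  refine ⟨A * B⁻¹, ?_, by rw [map_mul, map_inv]⟩
  show IsSquare (LinearEquiv.det (A * B⁻¹))
  rw [map_mul, map_inv]
  rw [FiniteField.unit_isSquare_iff hF] at hA hB ⊢
  rw [mul_pow, inv_pow]
  have h1 : LinearEquiv.det A ^ (Fintype.card F / 2) = -1 := by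
    rcases FiniteField.pow_dichotomy hF (LinearEquiv.det A).ne_zero with h | h
    · exact absurd (Units.ext (by simpa using h)) hA
    · exact Units.ext (by simpa using h)
  have h2 : LinearEquiv.det B ^ (Fintype.card F / 2) = -1 := by
    rcases FiniteField.pow_dichotomy hF (LinearEquiv.det B).ne_zero with h | h
    · exact absurd (Units.ext (by simpa using h)) hB
    · exact Units.ext (by simpa using h)
  rw [h1, h2]
  simp

/-- scalars have square determinant -/
theorem det_of_trivial (A : (Fin 2 → F) ≃ₗ[F] (Fin 2 → F))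
    (hA : MulAction.toPermHom ((Fin 2 → F) ≃ₗ[F] (Fin 2 → F)) (ℙ F (Fin 2 → F)) A = 1) :
    IsSquare (LinearEquiv.det A) := by
  have h1 : ∀ v : Fin 2 → F, ¬ LinearIndependent F ![v, (A : (Fin 2 → F) →ₗ[F] (Fin 2 → F)) v] := by
    intro v hv
    have hv0 : v ≠ 0 := by
      have := hv.ne_zero 0
      simpa using this
    have h2 := congrArg (fun g : Equiv.Perm (ℙ F (Fin 2 → F)) => g (Projectivization.mk F v hv0)) hA
    simp only [MulAction.toPermHom_apply, MulAction.toPerm_apply, Projectivization.smul_mk,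
      Equiv.Perm.coe_one, id] at h2
    rw [Projectivization.mk_eq_mk_iff'] at h2
    obtain ⟨a, ha⟩ := h2
    rw [LinearIndependent.pair_iff] at hv
    have h3 := hv a (-1) (by
      rw [ha]
      simp)
    exact absurd h3.2 (by simp)
  obtain ⟨a, ha⟩ := LinearMap.exists_eq_smul_id_of_forall_notLinearIndependent h1
  have h4 : ((LinearEquiv.det A : Fˣ) : F) = a ^ 2 := by
    rw [LinearEquiv.coe_det, ha, LinearMap.det_smul]
    simp
  have ha0 : a ≠ 0 := by
    rintro rfl
    have := (LinearEquiv.det A).ne_zero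
    rw [h4] at this
    exact this (by simp)
  refine ⟨Units.mk0 a ha0, Units.ext ?_⟩
  rw [h4]
  simp [pow_two]

theorem notMem_H {A : (Fin 2 → F) ≃ₗ[F] (Fin 2 → F)} (hA : ¬ IsSquare (LinearEquiv.det A)) :
    MulAction.toPermHom ((Fin 2 → F) ≃ₗ[F] (Fin 2 → F)) (ℙ F (Fin 2 → F)) A ∉ H F := by
  rintro ⟨B, hB, hAB⟩
  have h1 : IsSquare (LinearEquiv.det (A * B⁻¹)) := by
    apply det_of_trivial
    rw [map_mul, map_inv, hAB]
    simp
  have hB' : IsSquare (LinearEquiv.det B) := hB
  apply hA
  have h2 : LinearEquiv.det A = LinearEquiv.det (A * B⁻¹) * LinearEquiv.det B := by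
    rw [← map_mul]; simp
  rw [h2]
  exact h1.mul hB'

/-- for `i ≠ j` there is a derangement of nonsquare determinant mapping `i` to `j` -/
theorem exists_der [Fintype F] (hF : ringChar F ≠ 2) (i j : ℙ F (Fin 2 → F)) (hij : i ≠ j) :
    ∃ g ∈ DTo (PGL2 F) i j, g ∉ H F := by
  obtain ⟨d, t, hd, hdt⟩ := exists_param hF
  have hli : LinearIndependent F ![i.rep, j.rep] :=
    Projectivization.linearIndependent_pair_iff_ne.2 hij
  let b : Module.Basis (Fin 2) F (Fin 2 → F) :=
    basisOfLinearIndependentOfCardEqFinrank hli (by simp)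
  have hb0 : b 0 = i.rep := by simp [b]
  have hb1 : b 1 = j.rep := by simp [b]
  let M : Matrix (Fin 2) (Fin 2) F := !![0, -d; 1, t]
  let f : (Fin 2 → F) →ₗ[F] (Fin 2 → F) := Matrix.toLin b b M
  have hdet : LinearMap.det f = d := by
    simp only [f, LinearMap.det_toLin]
    simp [M, Matrix.det_fin_two]
  have hd0 : d ≠ 0 := by
    rintro rfl
    exact hd ⟨0, by simp⟩
  let A : (Fin 2 → F) ≃ₗ[F] (Fin 2 → F) := f.equivOfDetNeZero (by rw [hdet]; exact hd0)
  have hAf : ∀ v, A v = f v := fun v => rfl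
  have hA0 : A (b 0) = b 1 := by
    rw [hAf]
    simp [f, Matrix.toLin_self, Fin.sum_univ_two, M]
  have hA1 : A (b 1) = (-d) • b 0 + t • b 1 := by
    rw [hAf]
    simp [f, Matrix.toLin_self, Fin.sum_univ_two, M]
  have hdetA : ¬ IsSquare (LinearEquiv.det A) := by
    rintro ⟨c, hc⟩
    apply hd
    refine ⟨(c : F), ?_⟩
    rw [← hdet]
    have h1 : (LinearMap.det f) = ((LinearEquiv.det A : Fˣ) : F) := by
      rw [LinearEquiv.coe_det]
      rfl
    rw [h1, hc]
    simp
  have hli' : LinearIndependent F ![b 0, b 1] := by rw [hb0, hb1]; exact hli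
  refine ⟨MulAction.toPermHom ((Fin 2 → F) ≃ₗ[F] (Fin 2 → F)) (ℙ F (Fin 2 → F)) A,
    ⟨⟨⟨A, rfl⟩, ?_⟩, ?_⟩, notMem_H hdetA⟩
  · intro p
    induction p using Projectivization.ind with
    | h w hw =>
      intro hfix
      simp only [MulAction.toPermHom_apply, MulAction.toPerm_apply, Projectivization.smul_mk] at hfix
      rw [Projectivization.mk_eq_mk_iff'] at hfix
      obtain ⟨a, ha⟩ := hfix
      have ha' : a • w = A w := ha
      have hw' : w = (b.repr w 0) • b 0 + (b.repr w 1) • b 1 := by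
        have := b.sum_repr w
        rw [Fin.sum_univ_two] at this
        exact this.symm
      set x := b.repr w 0
      set y := b.repr w 1
      rw [hw', map_add, map_smul, map_smul, hA0, hA1] at ha'
      rw [LinearIndependent.pair_iff] at hli'
      have h1 := hli' (a * x + y * d) (a * y - x - y * t) (by
        have h2 : a • (x • b 0 + y • b 1) - (x • b 1 + y • (-d • b 0 + t • b 1)) = 0 :=
          sub_eq_zero.2 ha'
        rw [← h2]
        module)
      obtain ⟨h2, h3⟩ := h1
      by_cases hy : y = 0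
      · rw [hy] at h2 h3
        have hx : x = 0 := by linear_combination (-1 : F) * h3
        apply hw
        rw [hw', hx, hy]
        simp
      · apply hdt
        refine ⟨2 * a - t, ?_⟩
        have h4 : y * (a ^ 2 - t * a + d) = 0 := by
          linear_combination h2 + a * h3
        have h5 : a ^ 2 - t * a + d = 0 := by
          rcases mul_eq_zero.1 h4 with h | h
          · exact absurd h hy
          · exact h
        linear_combination (-4 : F) * h5
  · rw [MulAction.toPermHom_apply, MulAction.toPerm_apply, ← Projectivization.mk_rep i,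
      Projectivization.smul_mk, ← Projectivization.mk_rep j, Projectivization.mk_eq_mk_iff']
    refine ⟨1, ?_⟩
    rw [one_smul, ← hb1, ← hA0, hb0]
    rfl

end

/-- For every finite field `F` of odd characteristic, `PGL(2, F)` on the projective line over `F` is
not strict EKR robust. -/
theorem result (F : Type) [Field F] [Finite F] (hF : ringChar F ≠ 2) :
    ¬ StrictEKRRobust (PGL2 F) := by
  intro hrob
  have : Fintype F := Fintype.ofFinite F
  have : Fintype (PGL2 F) := Fintype.ofFinite _
  have hD : (∀ i j : ℙ F (Fin 2 → F), i ≠ j →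
      ¬ (DTo (PGL2 F) i j ∪ DTo (PGL2 F) j i ⊆ Der (PGL2 F) ∩ (H F : Set _))) := by
    intro i j hij hsub
    obtain ⟨g, hg, hg'⟩ := exists_der hF i j hij
    exact hg' (hsub (Or.inl hg)).2
  have h1 := hrob (Der (PGL2 F) ∩ (H F : Set _)) Set.inter_subset_left (by
    rintro g ⟨⟨hg1, hg2⟩, hg3⟩
    refine ⟨⟨(PGL2 F).inv_mem hg1, fun x hx => ?_⟩, (H F).inv_mem hg3⟩
    apply hg2 x
    conv_lhs => rw [← hx]
    simp) hD
  -- the subgroup `H` inside `G`
  let T : Finset (PGL2 F) := Finset.univ.filter (fun g => (g : Equiv.Perm _) ∈ H F)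
  have hT : (cay (PGL2 F) (Der (PGL2 F) \ (Der (PGL2 F) ∩ (H F : Set _)))).IsIndepSet T := by
    have key : ∀ g h : PGL2 F, (g : Equiv.Perm _) ∈ H F → (h : Equiv.Perm _) ∈ H F →
        ((h * g⁻¹ : PGL2 F) : Equiv.Perm _) ∉
          (Der (PGL2 F) \ (Der (PGL2 F) ∩ (H F : Set _))) := by
      intro g h hg hh hmem
      apply hmem.2
      refine ⟨hmem.1, ?_⟩
      push_cast
      exact (H F).mul_mem hh ((H F).inv_mem hg)
    intro g hg h hh _ hadj
    have hg' : (g : Equiv.Perm _) ∈ H F := (Finset.mem_filter.1 (Finset.mem_coe.1 hg)).2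
    have hh' : (h : Equiv.Perm _) ∈ H F := (Finset.mem_filter.1 (Finset.mem_coe.1 hh)).2
    rw [cay, SimpleGraph.fromRel_adj] at hadj
    rcases hadj.2 with h2 | h2
    · exact key g h hg' hh' h2
    · exact key h g hh' hg' h2
  have h2 := hT.card_le_indepNum
  have h3 : Nat.card (PGL2 F) ≤ 2 * T.card := by
    rw [Nat.card_eq_fintype_card, ← Finset.card_univ]
    have h4 := Finset.card_filter_add_card_filter_not (s := (Finset.univ : Finset (PGL2 F)))
      (fun g => (g : Equiv.Perm _) ∈ H F)
    have h5 : (Finset.univ.filter (fun g : PGL2 F => ¬ (g : Equiv.Perm _) ∈ H F)).card ≤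
        T.card := by
      rcases (Finset.univ.filter (fun g : PGL2 F => ¬ (g : Equiv.Perm _) ∈ H F)).eq_empty_or_nonempty
        with he | ⟨g0, hg0⟩
      · rw [he]; simp
      · apply Finset.card_le_card_of_injOn (fun g => g * g0⁻¹)
        · intro g hg
          have hg1 := (Finset.mem_filter.1 (Finset.mem_coe.1 hg)).2
          have hg2 := (Finset.mem_filter.1 hg0).2
          refine Finset.mem_coe.2 (Finset.mem_filter.2 ⟨Finset.mem_univ _, ?_⟩)
          push_cast
          exact index_le hF g.2 hg1 g0.2 hg2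
        · intro a _ b _ hab
          simpa using hab
    have h6 : T.card = (Finset.univ.filter (fun g : PGL2 F => (g : Equiv.Perm _) ∈ H F)).card := rfl
    omega
  have h7 : Nat.card (ℙ F (Fin 2 → F)) = Nat.card F + 1 :=
    Projectivization.card_of_finrank_two F (Fin 2 → F) (by simp)
  have h8 : 2 ≤ Nat.card F := Finite.one_lt_card
  have h9 : 0 < T.card := by
    rw [Finset.card_pos]
    exact ⟨1, Finset.mem_filter.2 ⟨Finset.mem_univ _, (H F).one_mem⟩⟩
  rw [h7] at h1
  nlinarith

end Pool.Agent.Results.MP_6fd06d_co.OddQ
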